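import Mathlib

/-!
# Triangular algebras and reducing subspaces: definitions
-/

set_option autoImplicit false
namespace Pool.Agent.H850.TR

variable {H : Type*} [NormedAddCommGroup H] [InnerProductSpace ℂ H] [CompleteSpace H]

/-- `A` belongs to a triangular algebra (Kadison-Singer): a subalgebra of `B(H)` whose diagonal is a
masa. -/
def Tri (A : H →L[ℂ] H) : Prop :=
  ∃ 𝒯 : Subalgebra ℂ (H →L[ℂ] H), A ∈ 𝒯 ∧
    {x : H →L[ℂ] H | x ∈ 𝒯 ∧ star x ∈ 𝒯} =
      Set.centralizer {x : H →L[ℂ] H | x ∈ 𝒯 ∧ star x ∈ 𝒯}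

/-- `V` is a reducing subspace of `A`. -/
def Reducing (A : H →L[ℂ] H) (V : Submodule ℂ H) : Prop :=
  IsClosed (V : Set H) ∧ (∀ v ∈ V, A v ∈ V) ∧ ∀ v ∈ V, star A v ∈ V

/-- `V` is a minimal reducing subspace of `A`. -/
def MinRed (A : H →L[ℂ] H) (V : Submodule ℂ H) : Prop :=
  Reducing A V ∧ V ≠ ⊥ ∧ ∀ W, Reducing A W → W ≤ V → W = ⊥ ∨ W = V

/-- the compression of `x` to the closed subspace `V` -/
noncomputable def cpr (V : Submodule ℂ H) [CompleteSpace V] (x : H →L[ℂ] H) : V →L[ℂ] V :=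
  V.orthogonalProjection ∘L x ∘L V.subtypeL

end Pool.Agent.H850.TR
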