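import Pool.Agent.H850.TR.Base
set_option autoImplicit false
open WeakDual
namespace Pool.Agent.H850.TR

variable {H : Type*} [NormedAddCommGroup H] [InnerProductSpace ℂ H] [CompleteSpace H]

/-- Urysohn functions as elements of the algebra. -/
lemma stonean_ury {B : Type*} [CommCStarAlgebra B] (C : Set (characterSpace ℂ B)) (hC : IsClosed C)
    (x : characterSpace ℂ B) (hx : x ∉ C) : ∃ b : B, (∀ z ∈ C, gelfandStarTransform B b z = 0) ∧
      gelfandStarTransform B b x = 1 := by
  obtain ⟨f, h0, h1, -⟩ := exists_continuous_zero_one_of_isClosed hC (isClosed_singleton (x := x))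
    (Set.disjoint_singleton_right.2 hx)
  have hc : Continuous fun z => ((f z : ℝ) : ℂ) := Complex.continuous_ofReal.comp f.continuous
  refine ⟨(gelfandStarTransform B).symm ⟨fun z => ((f z : ℝ) : ℂ), hc⟩, fun z hz => ?_, ?_⟩
  · rw [StarAlgEquiv.apply_symm_apply]
    show ((f z : ℝ) : ℂ) = 0
    rw [h0 hz]
    simp
  · rw [StarAlgEquiv.apply_symm_apply]
    show ((f x : ℝ) : ℂ) = 1
    rw [h1 (Set.mem_singleton x)]
    simp

/-- The projection onto an invariant subspace commutes. -/
lemma stonean_comm (K : Submodule ℂ H) [K.HasOrthogonalProjection] (y : H →L[ℂ] H)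
    (h1 : ∀ v ∈ K, y v ∈ K) (h2 : ∀ v ∈ K, (star y) v ∈ K) :
    K.starProjection * y = y * K.starProjection := by
  ext ξ
  have h3 : y (ξ - K.starProjection ξ) ∈ Kᗮ := by
    rw [Submodule.mem_orthogonal]
    intro u hu
    rw [← ContinuousLinearMap.adjoint_inner_left]
    exact (Submodule.mem_orthogonal K _).1 (Submodule.sub_starProjection_mem_orthogonal ξ) _ (h2 u hu)
  have h4 : y (K.starProjection ξ) ∈ K := h1 _ (Submodule.starProjection_apply_mem K ξ)
  have h5 : y ξ = y (K.starProjection ξ) + y (ξ - K.starProjection ξ) := by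
    rw [← map_add, add_sub_cancel]
  show K.starProjection (y ξ) = y (K.starProjection ξ)
  rw [h5, map_add, Submodule.starProjection_eq_self_iff.2 h4,
    (Submodule.starProjection_apply_eq_zero_iff K).2 h3, add_zero]

theorem stonean {B : Type*} [CommCStarAlgebra B] (φ : B →⋆ₐ[ℂ] (H →L[ℂ] H))
    (hinj : Function.Injective φ)
    (hbi : ∀ x : H →L[ℂ] H, (∀ y : H →L[ℂ] H, (∀ b, y * φ b = φ b * y) → x * y = y * x) → ∃ b, φ b = x) :
    ExtremallyDisconnected (characterSpace ℂ B) := by
  refine ⟨fun U hU => ?_⟩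
  obtain ⟨Γ, hΓ⟩ : ∃ Γ : B ≃⋆ₐ[ℂ] C(characterSpace ℂ B, ℂ), Γ = gelfandStarTransform B := ⟨_, rfl⟩
  have hury := stonean_ury (B := B)
  rw [← hΓ] at hury
  obtain ⟨S, hS⟩ : ∃ S : Set H, S = {v | ∃ b : B, (∀ x ∉ U, Γ b x = 0) ∧ ∃ ξ, v = φ b ξ} := ⟨_, rfl⟩
  obtain ⟨K, hK⟩ : ∃ K : Submodule ℂ H, K = (Submodule.span ℂ S).topologicalClosure := ⟨_, rfl⟩
  have hSK : ∀ v ∈ S, v ∈ K := fun v hv => by
    rw [hK]
    exact Submodule.le_topologicalClosure _ (Submodule.subset_span hv)
  have hKc : IsClosed (K : Set H) := by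
    rw [hK]
    exact Submodule.isClosed_topologicalClosure _
  have : CompleteSpace K := hKc.completeSpace_coe
  -- a closed subspace containing `S` contains `K`
  have hKle : ∀ L : Submodule ℂ H, IsClosed (L : Set H) → (∀ v ∈ S, v ∈ L) → K ≤ L := by
    intro L hL h
    rw [hK]
    exact Submodule.topologicalClosure_minimal _ (Submodule.span_le.2 h) hL
  have hinv : ∀ y : H →L[ℂ] H, (∀ b, y * φ b = φ b * y) → ∀ v ∈ K, y v ∈ K := by
    intro y hy
    have h1 : K ≤ K.comap (y : H →ₗ[ℂ] H) := by
      refine hKle _ (hKc.preimage y.continuous) fun v hv => ?_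
      have hv' := hv
      rw [hS] at hv'
      obtain ⟨b, hb, ξ, rfl⟩ := hv'
      show y (φ b ξ) ∈ K
      have h2 : y (φ b ξ) = φ b (y ξ) := congrArg (fun f : H →L[ℂ] H => f ξ) (hy b)
      rw [h2]
      apply hSK
      rw [hS]
      exact ⟨b, hb, y ξ, rfl⟩
    exact fun v hv => h1 hv
  have hstar : ∀ y : H →L[ℂ] H, (∀ b, y * φ b = φ b * y) → ∀ b, star y * φ b = φ b * star y := by
    intro y hy b
    have h1 := congrArg star (hy (star b))
    rw [star_mul, star_mul, map_star, star_star] at h1
    exact h1.symm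
  obtain ⟨e, he⟩ := hbi K.starProjection (fun y hy =>
    stonean_comm K y (hinv y hy) (hinv _ (hstar y hy)))
  have hpp : ∀ ξ, K.starProjection (K.starProjection ξ) = K.starProjection ξ := fun ξ =>
    Submodule.starProjection_eq_self_iff.2 (Submodule.starProjection_apply_mem K ξ)
  have hee : e * e = e := by
    apply hinj
    rw [map_mul, he]
    ext ξ
    exact hpp ξ
  have h01 : ∀ x, Γ e x = 0 ∨ Γ e x = 1 := by
    intro x
    have h1 : Γ e x * Γ e x = Γ e x := by
      conv_rhs => rw [← hee, map_mul]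
      rfl
    rcases eq_or_ne (Γ e x) 0 with h | h
    · exact Or.inl h
    · exact Or.inr (mul_left_cancel₀ h (by rw [h1, mul_one]))
  obtain ⟨V, hV⟩ : ∃ V : Set (characterSpace ℂ B), V = {x | Γ e x = 1} := ⟨_, rfl⟩
  have hVc : IsClosed V := by
    rw [hV]
    exact isClosed_eq (Γ e).continuous continuous_const
  have hVo : IsOpen V := by
    have h1 : Vᶜ = {x | Γ e x = 0} := by
      ext x
      rw [hV]
      simp only [Set.mem_compl_iff, Set.mem_ofPred_eq]
      constructor
      · intro h
        exact (h01 x).resolve_right h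
      · intro h h'
        rw [h] at h'
        exact zero_ne_one h'
    rw [← isClosed_compl_iff, h1]
    exact isClosed_eq (Γ e).continuous continuous_const
  -- `U ⊆ V`
  have hbV : ∀ b : B, (∀ x ∉ U, Γ b x = 0) → ∀ x, Γ b x ≠ 0 → x ∈ V := by
    intro b hb x hx
    have h1 : e * b = b := by
      apply hinj
      rw [map_mul, he]
      ext ξ
      show K.starProjection (φ b ξ) = φ b ξ
      apply Submodule.starProjection_eq_self_iff.2
      apply hSK
      rw [hS]
      exact ⟨b, hb, ξ, rfl⟩
    have h2 : Γ e x * Γ b x = Γ b x := by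
      conv_rhs => rw [← h1, map_mul]
      rfl
    rw [hV]
    show Γ e x = 1
    exact mul_right_cancel₀ hx (by rw [h2, one_mul])
  have hUV : U ⊆ V := by
    intro x hx
    obtain ⟨b, hb0, hb1⟩ := hury Uᶜ hU.isClosed_compl x (fun h => h hx)
    refine hbV b (fun z hz => hb0 z hz) x ?_
    rw [hb1]
    exact one_ne_zero
  have hcl : closure U = V := by
    refine Set.Subset.antisymm (closure_minimal hUV hVc) fun x0 hx0 => ?_
    by_contra hcon
    obtain ⟨g, hg0, hg1⟩ := hury (closure U) isClosed_closure x0 hcon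
    have h1 : K ≤ LinearMap.ker ((φ g : H →L[ℂ] H) : H →ₗ[ℂ] H) := by
      refine hKle _ ?_ fun v hv => ?_
      · exact isClosed_eq (φ g).continuous continuous_const
      · rw [hS] at hv
        obtain ⟨b, hb, ξ, rfl⟩ := hv
        have h2 : g * b = 0 := by
          apply Γ.injective
          rw [map_mul, map_zero]
          ext x
          show Γ g x * Γ b x = 0
          by_cases hx : x ∈ U
          · rw [hg0 x (subset_closure hx), zero_mul]
          · rw [hb x hx, mul_zero]
        show φ g (φ b ξ) = 0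
        have h3 : φ g (φ b ξ) = φ (g * b) ξ := by
          rw [map_mul]
          rfl
        rw [h3, h2, map_zero]
        rfl
    have h2 : g * e = 0 := by
      apply hinj
      rw [map_mul, he, map_zero]
      ext ξ
      exact h1 (Submodule.starProjection_apply_mem K ξ)
    have h3 : Γ g x0 * Γ e x0 = 0 := by
      have h4 : Γ (g * e) x0 = 0 := by
        rw [h2, map_zero]
        rfl
      rw [map_mul] at h4
      exact h4
    rw [hV] at hx0
    have h4 : Γ e x0 = 1 := hx0
    rw [hg1, h4, one_mul] at h3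
    exact one_ne_zero h3
  rw [hcl]
  exact hVo

end Pool.Agent.H850.TR
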