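import Pool.Agent.H850.TR.Base
set_option autoImplicit false
open Polynomial
namespace Pool.Agent.H850.TR

theorem exists_list {q : ℂ[X]} {d : ℕ} (hd : q.natDegree = d) :
    ∃ z : Fin d → ℂ, q = Polynomial.C q.leadingCoeff * ∏ i, (Polynomial.X - Polynomial.C (z i)) := by
  have hs : q.Splits := IsAlgClosed.splits q
  have h1 := hs.eq_prod_roots
  have h2 : q.roots.card = d := by rw [← hd]; exact hs.natDegree_eq_card_roots.symm
  obtain ⟨l, hl⟩ := Quot.exists_rep q.roots
  have hl' : (l : Multiset ℂ) = q.roots := hl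
  have hlen : l.length = d := by rw [← h2, ← hl', Multiset.coe_card]
  refine ⟨fun i => l.get (Fin.cast hlen.symm i), ?_⟩
  conv_lhs => rw [h1]
  congr 1
  rw [← hl', Multiset.map_coe, Multiset.prod_coe]
  have h3 : ∏ i : Fin d, (Polynomial.X - Polynomial.C (l.get (Fin.cast hlen.symm i))) =
      ∏ j : Fin l.length, (Polynomial.X - Polynomial.C (l.get j)) := by
    refine Fintype.prod_equiv (finCongr hlen.symm) _ _ ?_
    intro i
    rfl
  rw [h3]
  conv_lhs => rw [← List.ofFn_get l]
  rw [List.map_ofFn, List.prod_ofFn]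
  rfl

theorem bdd_set (h : ℂ[X]) (hd : 0 < h.natDegree) (B : ℝ) :
    IsCompact {z : ℂ | ‖h.eval z‖ ≤ B} := by
  have hcl : IsClosed {z : ℂ | ‖h.eval z‖ ≤ B} :=
    isClosed_le (h.continuous.norm) continuous_const
  have ht := Polynomial.tendsto_norm_atTop h (Polynomial.natDegree_pos_iff_degree_pos.1 hd)
    (z := fun z : ℂ => z) (tendsto_norm_cocompact_atTop (E := ℂ))
  have hev := ht.eventually_gt_atTop B
  rw [Filter.Eventually, Filter.mem_cocompact] at hev
  obtain ⟨t, htc, hts⟩ := hev
  refine htc.of_isClosed_subset hcl ?_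
  intro z hz
  by_contra hzt
  have h1 : B < ‖h.eval z‖ := hts hzt
  exact absurd hz (not_le.2 h1)

/-- URGENT (needed by 19:05 UTC). Continuous choice of the roots over an extremally disconnected compact space. -/
theorem roots_cont {X : Type*} [TopologicalSpace X] [CompactSpace X] [T2Space X] [ExtremallyDisconnected X]
    (N : C(X, ℂ)) (h : ℂ[X]) (hd : 0 < h.natDegree) :
    ∃ r : Fin h.natDegree → C(X, ℂ), ∀ x : X,
      h - Polynomial.C (N x) = Polynomial.C h.leadingCoeff * ∏ i, (Polynomial.X - Polynomial.C (r i x)) := by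
  classical
  set d := h.natDegree with hdd
  obtain ⟨B, hB⟩ : ∃ B : ℝ, ∀ x, ‖N x‖ ≤ B := ⟨‖N‖, fun x => N.norm_coe_le_norm x⟩
  set K : Set ℂ := {z : ℂ | ‖h.eval z‖ ≤ B} with hK
  have hKc : IsCompact K := bdd_set h hd B
  let Y : Set (X × (Fin d → ℂ)) := {p | (∀ i, p.2 i ∈ K) ∧
    ∀ w : ℂ, h.eval w - N p.1 = h.leadingCoeff * ∏ i, (w - p.2 i)}
  have hYc : IsCompact Y := by
    have h1 : IsCompact ((Set.univ : Set X) ×ˢ (Set.univ.pi fun _ : Fin d => K)) :=
      isCompact_univ.prod (isCompact_univ_pi fun _ => hKc)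
    refine h1.of_isClosed_subset ?_ ?_
    · have e : Y = (⋂ i : Fin d, {p : X × (Fin d → ℂ) | p.2 i ∈ K}) ∩
          ⋂ w : ℂ, {p : X × (Fin d → ℂ) | h.eval w - N p.1 = h.leadingCoeff * ∏ i, (w - p.2 i)} := by
        ext p
        simp [Y]
      rw [e]
      refine (isClosed_iInter fun i => ?_).inter (isClosed_iInter fun w => ?_)
      · exact hKc.isClosed.preimage (by fun_prop : Continuous fun p : X × (Fin d → ℂ) => p.2 i)
      · exact isClosed_eq (by fun_prop) (by fun_prop)
    · rintro p hp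
      exact ⟨Set.mem_univ _, fun i _ => hp.1 i⟩
  haveI : CompactSpace Y := isCompact_iff_compactSpace.1 hYc
  have hsurj : Function.Surjective (fun p : Y => p.1.1) := by
    intro x
    have hdeg : (h - Polynomial.C (N x)).natDegree = d := by
      rw [Polynomial.natDegree_sub_C]
    obtain ⟨z, hz⟩ := exists_list hdeg
    have hlc : (h - Polynomial.C (N x)).leadingCoeff = h.leadingCoeff := by
      rw [Polynomial.leadingCoeff, hdeg, Polynomial.coeff_sub, Polynomial.coeff_C,
        if_neg (by omega), sub_zero, hdd, Polynomial.leadingCoeff]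
    rw [hlc] at hz
    have hev : ∀ w : ℂ, h.eval w - N x = h.leadingCoeff * ∏ i, (w - z i) := by
      intro w
      have h1 := congrArg (Polynomial.eval w) hz
      simpa [Polynomial.eval_prod] using h1
    refine ⟨⟨(x, z), ?_, hev⟩, rfl⟩
    intro i
    have h1 := hev (z i)
    rw [Finset.prod_eq_zero (Finset.mem_univ i) (sub_self _), mul_zero, sub_eq_zero] at h1
    show ‖h.eval (z i)‖ ≤ B
    rw [h1]
    exact hB x
  have hcont : Continuous (fun p : Y => p.1.1) := by fun_prop
  obtain ⟨s, hs, hs2⟩ := CompactT2.ExtremallyDisconnected.projective (A := X) (f := id)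
    continuous_id hcont hsurj
  refine ⟨fun i => ⟨fun x => (s x).1.2 i, by fun_prop⟩, fun x => ?_⟩
  have h1 : (s x).1.1 = x := congrFun hs2 x
  apply Polynomial.funext
  intro w
  have h2 := (s x).2.2 w
  rw [h1] at h2
  simpa [Polynomial.eval_prod] using h2

end Pool.Agent.H850.TR
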