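import Pool.Agent.H850.TR.Base
set_option autoImplicit false
namespace Pool.Agent.H850.TR

variable {H : Type*} [NormedAddCommGroup H] [InnerProductSpace ℂ H] [CompleteSpace H]


theorem toc_centr (D : Set (H →L[ℂ] H)) (h1 : ∀ x ∈ D, ∀ y ∈ D, x * y = y * x)
    (h2 : ∀ x ∈ D, star x ∈ D)
    (h3 : ∀ E : Set (H →L[ℂ] H), (∀ x ∈ E, ∀ y ∈ E, x * y = y * x) → (∀ x ∈ E, star x ∈ E) →
      D ⊆ E → E ⊆ D) : D = Set.centralizer D := by
  apply Set.Subset.antisymm
  · intro x hx
    rw [Set.mem_centralizer_iff]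
    exact fun m hm => h1 m hm x hx
  · intro x hx
    rw [Set.mem_centralizer_iff] at hx
    have hsx : ∀ m ∈ D, m * star x = star x * m := by
      intro m hm
      have := congrArg star (hx (star m) (h2 m hm))
      simpa using this.symm
    have sa : ∀ y : H →L[ℂ] H, star y = y → (∀ m ∈ D, m * y = y * m) → y ∈ D := by
      intro y hy hc
      refine h3 (insert y D) ?_ ?_ (Set.subset_insert _ _) (Set.mem_insert _ _)
      · rintro a (rfl | ha) b (rfl | hb)
        · rfl
        · exact (hc b hb).symm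
        · exact hc a ha
        · exact h1 a ha b hb
      · rintro a (rfl | ha)
        · rw [hy]
          exact Set.mem_insert _ _
        · exact Set.mem_insert_of_mem _ (h2 a ha)
    have ha : x + star x ∈ D := by
      apply sa
      · rw [star_add, star_star, add_comm]
      · intro m hm
        rw [mul_add, add_mul, hx m hm, hsx m hm]
    have hb : Complex.I • (x - star x) ∈ D := by
      apply sa
      · rw [star_smul, star_sub, star_star]
        have : star Complex.I = -Complex.I := Complex.conj_I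
        rw [this, neg_smul, ← smul_neg, neg_sub]
      · intro m hm
        rw [mul_smul_comm, smul_mul_assoc, mul_sub, sub_mul, hx m hm, hsx m hm]
    have hab := h1 _ ha _ hb
    rw [mul_smul_comm, smul_mul_assoc] at hab
    have hab2 : (x + star x) * (x - star x) = (x - star x) * (x + star x) :=
      smul_right_injective _ Complex.I_ne_zero hab
    have hab3 : (2 : ℂ) • (star x * x - x * star x) = 0 := by
      have : (2 : ℂ) • (star x * x - x * star x) =
          (x + star x) * (x - star x) - (x - star x) * (x + star x) := by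
        rw [two_smul]
        noncomm_ring
      rw [this, hab2, sub_self]
    have hn : star x * x = x * star x := by
      have := (smul_eq_zero.1 hab3).resolve_left (by norm_num)
      exact sub_eq_zero.1 this
    refine h3 (insert x (insert (star x) D)) ?_ ?_
      ((Set.subset_insert _ _).trans (Set.subset_insert _ _)) (Set.mem_insert _ _)
    · clear ha hb hab hab2 hab3
      rintro a (rfl | rfl | ha') b (rfl | rfl | hb')
      · rfl
      · exact hn.symm
      · exact (hx b hb').symm
      · exact hn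
      · rfl
      · exact (hsx b hb').symm
      · exact hx a ha'
      · exact hsx a ha'
      · exact h1 a ha' b hb'
    · clear ha hb hab hab2 hab3
      rintro a (rfl | rfl | ha')
      · exact Or.inr (Or.inl rfl)
      · rw [star_star]
        exact Or.inl rfl
      · exact Or.inr (Or.inr (h2 a ha'))

theorem toc_zorn (S : Set (H →L[ℂ] H)) (h1 : ∀ x ∈ S, ∀ y ∈ S, x * y = y * x)
    (h2 : ∀ x ∈ S, star x ∈ S) : ∃ D : Set (H →L[ℂ] H), S ⊆ D ∧
      (∀ x ∈ D, ∀ y ∈ D, x * y = y * x) ∧ (∀ x ∈ D, star x ∈ D) ∧ D = Set.centralizer D := by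
  obtain ⟨D, hSD, hD⟩ := zorn_subset_nonempty
    {E : Set (H →L[ℂ] H) | (∀ x ∈ E, ∀ y ∈ E, x * y = y * x) ∧ ∀ x ∈ E, star x ∈ E} (by
      intro c hc hch _
      refine ⟨⋃₀ c, ⟨?_, ?_⟩, fun s hs => Set.subset_sUnion_of_mem hs⟩
      · rintro x ⟨s, hs, hxs⟩ y ⟨t, ht, hyt⟩
        rcases hch.total hs ht with h | h
        · exact (hc ht).1 x (h hxs) y hyt
        · exact (hc hs).1 x hxs y (h hyt)
      · rintro x ⟨s, hs, hxs⟩
        exact ⟨s, hs, (hc hs).2 x hxs⟩) S ⟨h1, h2⟩
  exact ⟨D, hSD, hD.prop.1, hD.prop.2, toc_centr D hD.prop.1 hD.prop.2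
    (fun E e1 e2 e3 => hD.le_of_ge ⟨e1, e2⟩ e3)⟩

/-- the triangular algebra of a chain -/
def toc_alg (P : ℕ → (H →L[ℂ] H)) (hPP : ∀ k, P k * P k = P k)
    (hPm : ∀ k l, k ≤ l → P l * P k = P k) (hPm' : ∀ k l, k ≤ l → P k * P l = P k)
    (𝒟 : Subalgebra ℂ (H →L[ℂ] H)) (hP : ∀ k, P k ∈ 𝒟) : Subalgebra ℂ (H →L[ℂ] H) where
  carrier := {x | (∀ k, x * P k = P k * x * P k) ∧
    ∀ k, (P (k + 1) - P k) * x * (P (k + 1) - P k) ∈ 𝒟}
  mul_mem' := by
    rintro x y ⟨hx1, hx2⟩ ⟨hy1, hy2⟩
    refine ⟨fun k => ?_, fun k => ?_⟩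
    · calc x * y * P k = x * (y * P k) := mul_assoc _ _ _
        _ = x * (P k * y * P k) := by rw [hy1 k]
        _ = (x * P k) * (y * P k) := by simp only [mul_assoc]
        _ = (P k * x * P k) * (y * P k) := by rw [hx1 k]
        _ = P k * x * (P k * y * P k) := by simp only [mul_assoc]
        _ = P k * x * (y * P k) := by rw [← hy1 k]
        _ = P k * (x * y) * P k := by simp only [mul_assoc]
    · have hQP : (P (k + 1) - P k) * P k = 0 := by
        rw [sub_mul, hPP, hPm k (k + 1) (Nat.le_succ k), sub_self]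
      have hQQ : (P (k + 1) - P k) * (P (k + 1) - P k) = P (k + 1) - P k := by
        rw [mul_sub, hQP, sub_zero, sub_mul, hPP, hPm' k (k + 1) (Nat.le_succ k)]
      have hPQ : P (k + 1) * (P (k + 1) - P k) = P (k + 1) - P k := by
        rw [mul_sub, hPP, hPm k (k + 1) (Nat.le_succ k)]
      have e1 : y * (P (k + 1) - P k) = P (k + 1) * (y * (P (k + 1) - P k)) := by
        calc y * (P (k + 1) - P k) = (y * P (k + 1)) * (P (k + 1) - P k) := by
              rw [mul_assoc, hPQ]
          _ = (P (k + 1) * y * P (k + 1)) * (P (k + 1) - P k) := by rw [hy1 (k + 1)]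
          _ = P (k + 1) * (y * (P (k + 1) * (P (k + 1) - P k))) := by simp only [mul_assoc]
          _ = _ := by rw [hPQ]
      have e2 : (P (k + 1) - P k) * x * P k = 0 := by
        rw [mul_assoc, hx1 k, ← mul_assoc, ← mul_assoc, hQP, zero_mul, zero_mul]
      have e3 : (P (k + 1) - P k) * (x * y) * (P (k + 1) - P k) =
          ((P (k + 1) - P k) * x * (P (k + 1) - P k)) *
            ((P (k + 1) - P k) * y * (P (k + 1) - P k)) := by
        calc (P (k + 1) - P k) * (x * y) * (P (k + 1) - P k)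
            = ((P (k + 1) - P k) * x) * (y * (P (k + 1) - P k)) := by simp only [mul_assoc]
          _ = ((P (k + 1) - P k) * x) * (P (k + 1) * (y * (P (k + 1) - P k))) := by rw [← e1]
          _ = ((P (k + 1) - P k) * x * ((P (k + 1) - P k) + P k)) *
                (y * (P (k + 1) - P k)) := by rw [sub_add_cancel]; simp only [mul_assoc]
          _ = ((P (k + 1) - P k) * x * (P (k + 1) - P k)) * (y * (P (k + 1) - P k)) := by
              rw [mul_add ((P (k + 1) - P k) * x), e2, add_zero]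
          _ = ((P (k + 1) - P k) * x * ((P (k + 1) - P k) * (P (k + 1) - P k))) *
                (y * (P (k + 1) - P k)) := by rw [hQQ]
          _ = _ := by simp only [mul_assoc]
      show (P (k + 1) - P k) * (x * y) * (P (k + 1) - P k) ∈ 𝒟
      rw [e3]
      exact mul_mem (hx2 k) (hy2 k)
  add_mem' := by
    rintro x y ⟨hx1, hx2⟩ ⟨hy1, hy2⟩
    refine ⟨fun k => ?_, fun k => ?_⟩
    · rw [add_mul, mul_add, add_mul, ← hx1 k, ← hy1 k]
    · rw [mul_add, add_mul]
      exact add_mem (hx2 k) (hy2 k)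
  algebraMap_mem' := by
    intro r
    refine ⟨fun k => ?_, fun k => ?_⟩
    · rw [← Algebra.commutes r (P k), mul_assoc, hPP]
    · exact mul_mem (mul_mem (sub_mem (hP _) (hP _)) (algebraMap_mem _ _))
        (sub_mem (hP _) (hP _))

/-- JOB 3b (URGENT, needed by 19:05 UTC). `P 0 = 0 ≤ P 1 ≤ ... ≤ P d = 1` projections, all commuting with the star-closed
commutative set `C`, invariant under `A`, and the diagonal blocks of `A` are those of `R k ∈ C`.
PROOF. By Zorn (`zorn_subset_nonempty` or the like) there is a maximal set `D ⊇ C ∪ {P k | k ≤ d}` which is commutative and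
star-closed; then `D = Set.centralizer D` (if `x` commutes with `D`, so do its real and imaginary parts, as `D` is star-closed, and for a
self-adjoint `x` commuting with `D` the set `D ∪ {x}` is commutative and star-closed, so `x ∈ D`; `D` is closed under sums, products, scalars
because `D = centralizer D`). Put `Q k = P (k+1) - P k`,
`𝒯 = {x | ∀ k < d, (1 - P k) * x * P k = 0 ∧ Q k * x * Q k ∈ D}` (it contains the scalars and is closed under products because
`Q k * (x * y) * Q k = (Q k * x * Q k) * (Q k * y * Q k)` for such `x, y`: `y * Q k = P (k+1) * y * Q k`, `Q k * x * P k = 0`,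
and `P (k+1) = P k + Q k`). `A ∈ 𝒯` as `Q k * A * Q k = Q k * R k * Q k`. If `x, star x ∈ 𝒯` then `x` commutes with all `P k`, and
`x = ∑ k < d, Q k * x * Q k ∈ D`; and `D ⊆ 𝒯`. So the diagonal of `𝒯` is `D = centralizer D`. -/
theorem tri_of_chain (A : H →L[ℂ] H) (C : Set (H →L[ℂ] H)) (hC : ∀ x ∈ C, ∀ y ∈ C, x * y = y * x)
    (hs : ∀ x ∈ C, star x ∈ C) (d : ℕ) (P : ℕ → (H →L[ℂ] H)) (R : ℕ → (H →L[ℂ] H)) (hR : ∀ i, R i ∈ C)
    (hP0 : P 0 = 0) (hPd : P d = 1) (hPs : ∀ k, star (P k) = P k) (hPP : ∀ k, P k * P k = P k)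
    (hPm : ∀ k l, k ≤ l → P l * P k = P k) (hPC : ∀ k, ∀ x ∈ C, x * P k = P k * x)
    (hPA : ∀ k, A * P k = P k * A * P k)
    (hAR : ∀ k, (1 - P k) * (A - R k) * P (k + 1) = 0) : Tri A := by
  have hPm' : ∀ k l, k ≤ l → P k * P l = P k := by
    intro k l h
    have := congrArg star (hPm k l h)
    rw [star_mul, hPs, hPs] at this
    exact this
  have hPcomm : ∀ k l, P k * P l = P l * P k := by
    intro k l
    rcases le_total k l with h | h
    · rw [hPm' k l h, hPm k l h]
    · rw [hPm l k h, hPm' l k h]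
  obtain ⟨D, hSD, hD1, hD2, hD3⟩ := toc_zorn (C ∪ Set.range P) (by
      rintro x (hx | ⟨k, rfl⟩) y (hy | ⟨l, rfl⟩)
      · exact hC x hx y hy
      · exact hPC l x hx
      · exact (hPC k y hy).symm
      · exact hPcomm k l) (by
      rintro x (hx | ⟨k, rfl⟩)
      · exact Or.inl (hs x hx)
      · rw [hPs]
        exact Or.inr ⟨k, rfl⟩)
  have hmem : ∀ x, x ∈ Subalgebra.centralizer ℂ D ↔ x ∈ D := by
    intro x
    have h1 : x ∈ Subalgebra.centralizer ℂ D ↔ x ∈ Set.centralizer D := by
      rw [Subalgebra.mem_centralizer_iff, Set.mem_centralizer_iff]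
    rw [h1, ← hD3]
  have hP𝒟 : ∀ k, P k ∈ Subalgebra.centralizer ℂ D := fun k => (hmem _).2 (hSD (Or.inr ⟨k, rfl⟩))
  have hΔ : {x : H →L[ℂ] H | x ∈ toc_alg P hPP hPm hPm' (Subalgebra.centralizer ℂ D) hP𝒟 ∧
      star x ∈ toc_alg P hPP hPm hPm' (Subalgebra.centralizer ℂ D) hP𝒟} = D := by
    apply Set.Subset.antisymm
    · rintro x ⟨⟨hx1, hx2⟩, ⟨hy1, -⟩⟩
      have hcom : ∀ k, x * P k = P k * x := by
        intro k
        have h1 := congrArg star (hy1 k)
        rw [star_mul, star_mul, star_mul, star_star, hPs] at h1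
        rw [h1, ← mul_assoc]
        exact hx1 k
      have hsum : x = ∑ k ∈ Finset.range d, (P (k + 1) - P k) * x * (P (k + 1) - P k) := by
        have h1 : ∀ k, (P (k + 1) - P k) * x * (P (k + 1) - P k) = (P (k + 1) - P k) * x := by
          intro k
          have hQP : (P (k + 1) - P k) * P k = 0 := by
            rw [sub_mul, hPP, hPm k (k + 1) (Nat.le_succ k), sub_self]
          have hQQ : (P (k + 1) - P k) * (P (k + 1) - P k) = P (k + 1) - P k := by
            rw [mul_sub, hQP, sub_zero, sub_mul, hPP, hPm' k (k + 1) (Nat.le_succ k)]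
          have h2 : x * (P (k + 1) - P k) = (P (k + 1) - P k) * x := by
            rw [mul_sub, sub_mul, hcom, hcom]
          rw [mul_assoc, h2, ← mul_assoc, hQQ]
        simp only [h1]
        rw [← Finset.sum_mul, Finset.sum_range_sub, hPd, hP0, sub_zero, one_mul]
      rw [← hmem, hsum]
      exact sum_mem fun k _ => hx2 k
    · have key : ∀ x ∈ D, x ∈ toc_alg P hPP hPm hPm' (Subalgebra.centralizer ℂ D) hP𝒟 := by
        intro x hx
        refine ⟨fun k => ?_, fun k => ?_⟩
        · rw [← hD1 x hx (P k) (hSD (Or.inr ⟨k, rfl⟩)), mul_assoc, hPP]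
        · exact mul_mem (mul_mem (sub_mem (hP𝒟 _) (hP𝒟 _)) ((hmem x).2 hx))
            (sub_mem (hP𝒟 _) (hP𝒟 _))
      exact fun x hx => ⟨key x hx, key _ (hD2 x hx)⟩
  refine ⟨toc_alg P hPP hPm hPm' (Subalgebra.centralizer ℂ D) hP𝒟, ⟨hPA, fun k => ?_⟩, ?_⟩
  · have hQP : (P (k + 1) - P k) * P k = 0 := by
      rw [sub_mul, hPP, hPm k (k + 1) (Nat.le_succ k), sub_self]
    have hPQ : P (k + 1) * (P (k + 1) - P k) = P (k + 1) - P k := by
      rw [mul_sub, hPP, hPm k (k + 1) (Nat.le_succ k)]
    have hQ1 : (P (k + 1) - P k) * (1 - P k) = P (k + 1) - P k := by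
      rw [mul_sub, hQP, mul_one, sub_zero]
    have hzero : (P (k + 1) - P k) * (A - R k) * (P (k + 1) - P k) = 0 := by
      calc (P (k + 1) - P k) * (A - R k) * (P (k + 1) - P k)
          = ((P (k + 1) - P k) * (1 - P k)) * (A - R k) * (P (k + 1) * (P (k + 1) - P k)) := by
            rw [hQ1, hPQ]
        _ = (P (k + 1) - P k) * ((1 - P k) * (A - R k) * P (k + 1)) * (P (k + 1) - P k) := by
            simp only [mul_assoc]
        _ = 0 := by rw [hAR k, mul_zero, zero_mul]
    have heq : (P (k + 1) - P k) * A * (P (k + 1) - P k) =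
        (P (k + 1) - P k) * R k * (P (k + 1) - P k) := by
      rw [mul_sub (P (k + 1) - P k) A, sub_mul] at hzero
      exact sub_eq_zero.1 hzero
    rw [heq]
    exact mul_mem (mul_mem (sub_mem (hP𝒟 _) (hP𝒟 _)) ((hmem _).2 (hSD (Or.inl (hR k)))))
      (sub_mem (hP𝒟 _) (hP𝒟 _))
  · rw [hΔ]
    exact hD3

end Pool.Agent.H850.TR
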