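import Pool.Agent.H850.TR.Base
set_option autoImplicit false
namespace Pool.Agent.H850.TR

variable {H : Type*} [NormedAddCommGroup H] [InnerProductSpace ℂ H] [CompleteSpace H]

theorem chain_of_prod (A : H →L[ℂ] H) (C : Set (H →L[ℂ] H)) (hC : ∀ x ∈ C, ∀ y ∈ C, x * y = y * x)
    (hs : ∀ x ∈ C, star x ∈ C) (hA : ∀ x ∈ C, x * A = A * x) (d : ℕ) (R : ℕ → (H →L[ℂ] H)) (hR : ∀ i, R i ∈ C)
    (hp : ((List.range d).map (fun i => A - R i)).prod = 0) :
    ∃ P : ℕ → (H →L[ℂ] H), P 0 = 0 ∧ P d = 1 ∧ (∀ k, star (P k) = P k) ∧ (∀ k, P k * P k = P k) ∧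
      (∀ k l, k ≤ l → P l * P k = P k) ∧ (∀ k, ∀ x ∈ C, x * P k = P k * x) ∧
      (∀ k, A * P k = P k * A * P k) ∧ (∀ k, (1 - P k) * (A - R k) * P (k + 1) = 0) := by
  classical
  set Q : ℕ → (H →L[ℂ] H) := fun k => ((List.range k).map (fun i => A - R i)).prod with hQ
  have hQs : ∀ k, Q (k + 1) = Q k * (A - R k) := by
    intro k
    simp [hQ, List.range_succ]
  have hQ0 : Q 0 = 1 := by simp [hQ]
  have hAR : ∀ i, Commute (A - R i) A := fun i =>
    (Commute.refl A).sub_left (hA _ (hR i))
  have hxR : ∀ x ∈ C, ∀ i, Commute (A - R i) x := fun x hx i =>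
    Commute.sub_left ((hA x hx).symm) (hC _ (hR i) x hx)
  have hQA : ∀ k, Commute (Q k) A := by
    intro k
    induction k with
    | zero => rw [hQ0]; exact Commute.one_left A
    | succ k ih => rw [hQs]; exact ih.mul_left (hAR k)
  have hQx : ∀ k, ∀ x ∈ C, Commute (Q k) x := by
    intro k x hx
    induction k with
    | zero => rw [hQ0]; exact Commute.one_left x
    | succ k ih => rw [hQs]; exact ih.mul_left (hxR x hx k)
  have hQR : ∀ k i, Commute (Q k) (A - R i) := fun k i =>
    (hQA k).sub_right (hQx k (R i) (hR i))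
  let K : ℕ → Submodule ℂ H := fun k => LinearMap.ker (Q k : H →ₗ[ℂ] H)
  have hKmem : ∀ k v, v ∈ K k ↔ Q k v = 0 := fun k v => by
    simp [K, LinearMap.mem_ker]
  have hKcl : ∀ k, IsClosed (K k : Set H) := fun k => (Q k).isClosed_ker
  have inst : ∀ k, (K k).HasOrthogonalProjection := by
    intro k
    have : CompleteSpace (K k) := (hKcl k).completeSpace_coe
    infer_instance
  have hKmono : ∀ k l, k ≤ l → K k ≤ K l := by
    intro k l hkl
    induction l, hkl using Nat.le_induction with
    | base => exact le_rfl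
    | succ l _ ih =>
      refine ih.trans fun v hv => ?_
      rw [hKmem] at hv ⊢
      rw [hQs, (hQR l l).eq]
      simp [hv]
  have hKinv : ∀ k (T : H →L[ℂ] H), Commute (Q k) T → ∀ v ∈ K k, T v ∈ K k := by
    intro k T hT v hv
    rw [hKmem] at hv ⊢
    have := congrArg (fun S : H →L[ℂ] H => S v) hT.eq
    simpa [hv] using this
  have hfix : ∀ k v, v ∈ K k → (K k).starProjection v = v := fun k v hv =>
    Submodule.starProjection_eq_self_iff.2 hv
  have hmem : ∀ k v, (K k).starProjection v ∈ K k := fun k v =>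
    Submodule.starProjection_apply_mem _ v
  refine ⟨fun k => (K k).starProjection, ?_, ?_, ?_, ?_, ?_, ?_, ?_, ?_⟩
  · ext v
    have h1 : (K 0).starProjection v ∈ K 0 := hmem 0 v
    rw [hKmem, hQ0] at h1
    simpa using h1
  · ext v
    have : v ∈ K d := by
      rw [hKmem]
      have : Q d = 0 := hp
      simp [this]
    simpa using hfix d v this
  · intro k
    exact isSelfAdjoint_starProjection (K k)
  · intro k
    ext v
    exact hfix k _ (hmem k v)
  · intro k l hkl
    ext v
    exact hfix l _ (hKmono k l hkl (hmem k v))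
  · intro k x hx
    ext v
    symm
    show (K k).starProjection (x v) = x ((K k).starProjection v)
    refine Submodule.eq_starProjection_of_mem_of_inner_eq_zero ?_ ?_
    · exact hKinv k x (hQx k x hx) _ (hmem k v)
    · intro w hw
      have h1 : star x w ∈ K k := hKinv k (star x) (hQx k _ (hs x hx)) w hw
      rw [← map_sub, ← ContinuousLinearMap.adjoint_inner_right]
      exact Submodule.starProjection_inner_eq_zero v _ h1
  · intro k
    ext v
    exact (hfix k _ (hKinv k A (hQA k) _ (hmem k v))).symm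
  · intro k
    ext v
    have h1 : (A - R k) ((K (k + 1)).starProjection v) ∈ K k := by
      rw [hKmem]
      have h2 := hmem (k + 1) v
      rw [hKmem, hQs] at h2
      exact h2
    have h3 := hfix k _ h1
    show (1 - (K k).starProjection) ((A - R k) ((K (k + 1)).starProjection v)) = 0
    rw [sub_apply, h3]
    simp

end Pool.Agent.H850.TR
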