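import Pool.Agent.H850.TR.Base
set_option autoImplicit false
namespace Pool.Agent.H850.TR

variable {H : Type*} [NormedAddCommGroup H] [InnerProductSpace ℂ H] [CompleteSpace H]

lemma reducing_orthogonal {A : H →L[ℂ] H} {W : Submodule ℂ H} (hW : Reducing A W) :
    Reducing A Wᗮ := by
  refine ⟨W.isClosed_orthogonal, fun v hv => ?_, fun v hv => ?_⟩
  · rw [Submodule.mem_orthogonal] at hv ⊢
    intro w hw
    rw [← ContinuousLinearMap.adjoint_inner_left]
    exact hv _ (hW.2.2 w hw)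
  · rw [Submodule.mem_orthogonal] at hv ⊢
    intro w hw
    rw [ContinuousLinearMap.star_eq_adjoint, ContinuousLinearMap.adjoint_inner_right]
    exact hv _ (hW.2.1 w hw)

lemma reducing_sInf {A : H →L[ℂ] H} {S : Set (Submodule ℂ H)} (hS : ∀ U ∈ S, Reducing A U) :
    Reducing A (sInf S) := by
  refine ⟨?_, fun v hv => ?_, fun v hv => ?_⟩
  · rw [Submodule.coe_sInf]
    exact isClosed_biInter fun U hU => (hS U hU).1
  · rw [Submodule.mem_sInf] at hv ⊢
    exact fun U hU => (hS U hU).2.1 v (hv U hU)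
  · rw [Submodule.mem_sInf] at hv ⊢
    exact fun U hU => (hS U hU).2.2 v (hv U hU)

theorem exists_minimal (A κ : H →L[ℂ] H) (hκ : IsCompactOperator κ) (hsa : star κ = κ) (h0 : κ ≠ 0)
    (hinv : ∀ V, Reducing A V → ∀ v ∈ V, κ v ∈ V) :
    ∃ V, Reducing A V ∧ V ≠ ⊥ ∧ ∀ W, Reducing A W → W ≤ V → W = ⊥ ∨ W = V := by
  classical
  have hsa' : IsSelfAdjoint κ := hsa
  have hsym := ContinuousLinearMap.isSelfAdjoint_iff_isSymmetric.1 hsa'
  have hex : ∃ μ : ℂ, Module.End.HasEigenvalue (κ : Module.End ℂ H) μ ∧ μ ≠ 0 := by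
    by_contra hcon
    push Not at hcon
    exact h0 ((ContinuousLinearMap.eq_zero_of_forall_hasEigenvalue_eq_zero hκ hsym).1 hcon)
  obtain ⟨μ, hμ, hμ0⟩ := hex
  haveI hfd : FiniteDimensional ℂ (Module.End.eigenspace (κ : Module.End ℂ H) μ) :=
    ContinuousLinearMap.finite_dimensional_eigenspace hκ μ hμ0
  obtain ⟨E, hE⟩ : ∃ E, E = Module.End.eigenspace (κ : Module.End ℂ H) μ := ⟨_, rfl⟩
  rw [← hE] at hfd
  have hEbot : E ≠ ⊥ := by rw [hE]; exact hμ
  have hEmem : ∀ x, x ∈ E ↔ κ x = μ • x := fun x => by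
    rw [hE, Module.End.mem_eigenspace_iff]
    rfl
  have hfin : ∀ V : Submodule ℂ H, FiniteDimensional ℂ (V ⊓ E : Submodule ℂ H) := fun V =>
    Submodule.finiteDimensional_of_le inf_le_right
  -- a reducing subspace with minimal intersection
  have hP : ∃ n : ℕ, ∃ V : Submodule ℂ H, Reducing A V ∧ V ⊓ E ≠ ⊥ ∧
      Module.finrank ℂ (V ⊓ E : Submodule ℂ H) = n :=
    ⟨_, ⊤, ⟨isClosed_univ, fun _ _ => trivial, fun _ _ => trivial⟩, by rwa [top_inf_eq], rfl⟩
  obtain ⟨V, hV, hVE, hVn⟩ := Nat.find_spec hP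
  have hmin : ∀ W : Submodule ℂ H, Reducing A W → W ⊓ E ≠ ⊥ →
      Module.finrank ℂ (V ⊓ E : Submodule ℂ H) ≤ Module.finrank ℂ (W ⊓ E : Submodule ℂ H) := by
    intro W h1 h2
    rw [hVn]
    exact Nat.find_min' hP ⟨W, h1, h2, rfl⟩
  obtain ⟨S, hS⟩ : ∃ S, S = {U : Submodule ℂ H | Reducing A U ∧ V ⊓ E ≤ U} := ⟨_, rfl⟩
  have hSr : ∀ U ∈ S, Reducing A U := fun U hU => by rw [hS] at hU; exact hU.1
  have hin : ∀ U, Reducing A U → V ⊓ E ≤ U → sInf S ≤ U := fun U h1 h2 =>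
    sInf_le (by rw [hS]; exact ⟨h1, h2⟩)
  have hle : V ⊓ E ≤ sInf S := le_sInf fun U hU => by rw [hS] at hU; exact hU.2
  have hleV : sInf S ≤ V := hin V hV inf_le_left
  refine ⟨sInf S, reducing_sInf hSr, ?_, ?_⟩
  · intro h
    rw [h] at hle
    exact hVE (le_bot_iff.1 hle)
  · intro W hW hWS
    by_cases hWE : W ⊓ E = ⊥
    · left
      haveI : CompleteSpace W := hW.1.completeSpace_coe
      have hWo := reducing_orthogonal hW
      have key : V ⊓ E ≤ Wᗮ := by
        intro x hx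
        obtain ⟨w, hw, w', hw', hxw⟩ := Submodule.exists_add_mem_mem_orthogonal (K := W) x
        have hκx : κ x = μ • x := (hEmem x).1 hx.2
        have e1 : κ w - μ • w = -(κ w' - μ • w') := by
          rw [hxw, map_add, smul_add] at hκx
          have : κ w - μ • w + (κ w' - μ • w') = 0 := by
            rw [sub_add_sub_comm, hκx, sub_self]
          exact eq_neg_of_add_eq_zero_left this
        have m1 : κ w - μ • w ∈ W := W.sub_mem (hinv W hW w hw) (W.smul_mem μ hw)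
        have m2 : κ w - μ • w ∈ Wᗮ := by
          rw [e1]
          exact (Wᗮ).neg_mem ((Wᗮ).sub_mem (hinv Wᗮ hWo w' hw') ((Wᗮ).smul_mem μ hw'))
        have m3 : κ w - μ • w ∈ W ⊓ Wᗮ := ⟨m1, m2⟩
        rw [Submodule.inf_orthogonal_eq_bot, Submodule.mem_bot, sub_eq_zero] at m3
        have m4 : w ∈ W ⊓ E := ⟨hw, (hEmem w).2 m3⟩
        rw [hWE, Submodule.mem_bot] at m4
        rw [hxw, m4, zero_add]
        exact hw'
      have h1 : W ≤ Wᗮ := hWS.trans (hin Wᗮ hWo key)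
      have h2 : W ≤ W ⊓ Wᗮ := le_inf le_rfl h1
      rw [Submodule.inf_orthogonal_eq_bot] at h2
      exact le_bot_iff.1 h2
    · right
      have h1 : W ⊓ E ≤ V ⊓ E := inf_le_inf_right E (hWS.trans hleV)
      haveI := hfin V
      have h2 : W ⊓ E = V ⊓ E := Submodule.eq_of_le_of_finrank_le h1 (hmin W hW hWE)
      refine le_antisymm hWS (hin W hW ?_)
      rw [← h2]
      exact inf_le_left

end Pool.Agent.H850.TR
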