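import Pool.Agent.H850.TR.J1
import Pool.Agent.H850.TR.J2
import Pool.Agent.H850.TR.J3
import Pool.Agent.H850.TR.J3a
set_option autoImplicit false
open Polynomial WeakDual
namespace Pool.Agent.H850.TR

variable {H : Type*} [NormedAddCommGroup H] [InnerProductSpace ℂ H] [CompleteSpace H]

/-- factorisation of `h(A) - n` over an abelian von Neumann algebra commuting with `A` -/
theorem roots_op {B : Type*} [CommCStarAlgebra B] (φ : B →⋆ₐ[ℂ] (H →L[ℂ] H))
    (hinj : Function.Injective φ)
    (hbi : ∀ x : H →L[ℂ] H, (∀ y : H →L[ℂ] H, (∀ b, y * φ b = φ b * y) → x * y = y * x) → ∃ b, φ b = x)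
    (n : B) (h : ℂ[X]) (hd : 0 < h.natDegree) (A : H →L[ℂ] H) (hA : ∀ b, φ b * A = A * φ b) :
    ∃ R : ℕ → B, aeval A h - φ n =
      h.leadingCoeff • ((List.range h.natDegree).map (fun i => A - φ (R i))).prod := by
  classical
  have := stonean φ hinj hbi
  set G := gelfandStarTransform B with hG
  obtain ⟨r, hr⟩ := roots_cont (G n) h hd
  set R : Fin h.natDegree → B := fun i => G.symm (r i) with hR
  -- the identity in `B[X]`
  have key : h.map (algebraMap ℂ B) - Polynomial.C n =
      Polynomial.C (algebraMap ℂ B h.leadingCoeff) * ∏ i, (Polynomial.X - Polynomial.C (R i)) := by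
    -- test by characters
    have hchar : ∀ χ : characterSpace ℂ B,
        (h.map (algebraMap ℂ B) - Polynomial.C n).map (χ : B →+* ℂ) =
        (Polynomial.C (algebraMap ℂ B h.leadingCoeff) *
          ∏ i, (Polynomial.X - Polynomial.C (R i))).map (χ : B →+* ℂ) := by
      intro χ
      have h1 : (χ : B →+* ℂ).comp (algebraMap ℂ B) = RingHom.id ℂ := by
        ext z
        exact AlgHomClass.commutes χ z
      have h2 : ∀ b : B, (χ : B →+* ℂ) b = G b χ := fun b => rfl
      have h3 : ∀ i, (χ : B →+* ℂ) (R i) = r i χ := by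
        intro i
        rw [h2]
        have : G (R i) = r i := G.apply_symm_apply (r i)
        rw [this]
      rw [Polynomial.map_sub, Polynomial.map_map, h1, Polynomial.map_id, Polynomial.map_C,
        Polynomial.map_mul, Polynomial.map_C, Polynomial.map_prod]
      simp only [Polynomial.map_sub, Polynomial.map_X, Polynomial.map_C]
      rw [h2 n, hr χ]
      congr 1
      · congr 1
        exact (RingHom.congr_fun h1 _).symm
      · apply Finset.prod_congr rfl
        intro i _
        rw [h3 i]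
    ext k
    apply G.injective
    ext χ
    have := congrArg (fun p : ℂ[X] => p.coeff k) (hchar χ)
    simp only [Polynomial.coeff_map] at this
    exact this
  -- evaluate at `A`
  have hcomm : ∀ b : B, Commute ((φ : B →+* (H →L[ℂ] H)) b) A := fun b => hA b
  set ev := Polynomial.eval₂RingHom' (φ : B →+* (H →L[ℂ] H)) A hcomm with hev
  have hevC : ∀ b : B, ev (Polynomial.C b) = φ b := by
    intro b
    show Polynomial.eval₂ (φ : B →+* (H →L[ℂ] H)) A (Polynomial.C b) = φ b
    rw [Polynomial.eval₂_C]; rfl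
  have hevX : ev Polynomial.X = A := by
    show Polynomial.eval₂ (φ : B →+* (H →L[ℂ] H)) A Polynomial.X = A
    rw [Polynomial.eval₂_X]
  have hevh : ev (h.map (algebraMap ℂ B)) = aeval A h := by
    show Polynomial.eval₂ (φ : B →+* (H →L[ℂ] H)) A (h.map (algebraMap ℂ B)) = aeval A h
    rw [Polynomial.eval₂_map, Polynomial.aeval_def]
    congr 1
    ext1 z
    exact AlgHomClass.commutes φ z
  refine ⟨fun i => if hi : i < h.natDegree then R ⟨i, hi⟩ else 0, ?_⟩
  have h4 := congrArg ev key
  rw [map_sub, hevh, hevC, map_mul, hevC, ← List.prod_ofFn, map_list_prod, List.map_ofFn] at h4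
  rw [h4]
  have h5 : φ (algebraMap ℂ B h.leadingCoeff) = algebraMap ℂ (H →L[ℂ] H) h.leadingCoeff :=
    AlgHomClass.commutes φ _
  rw [h5, Algebra.algebraMap_eq_smul_one, smul_mul_assoc, one_mul]
  congr 2
  rw [List.ofFn_eq_map]
  have h6 : List.range h.natDegree = (List.finRange h.natDegree).map Fin.val := by
    apply List.ext_getElem
    · simp
    · intro i h1 h2; simp
  rw [h6, List.map_map]
  apply List.map_congr_left
  intro i _
  simp only [Function.comp]
  rw [map_sub, hevX, hevC]
  simp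

theorem tri_of_polySelfAdjoint (A : H →L[ℂ] H) (h : ℂ[X]) (hd : 0 < h.natDegree)
    (hN : star (aeval A h) = aeval A h) : Tri A := by
  set N : H →L[ℂ] H := aeval A h with hNdef
  set S1 : StarSubalgebra ℂ (H →L[ℂ] H) := StarSubalgebra.centralizer ℂ {N} with hS1
  set 𝒞 : StarSubalgebra ℂ (H →L[ℂ] H) := StarSubalgebra.centralizer ℂ (S1 : Set (H →L[ℂ] H)) with h𝒞
  have hm1 : ∀ z, z ∈ S1 ↔ N * z = z * N := by
    intro z
    rw [hS1, StarSubalgebra.mem_centralizer_iff]
    simp [hN]
  have hm2 : ∀ z, z ∈ 𝒞 ↔ ∀ g ∈ S1, g * z = z * g := by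
    intro z
    rw [h𝒞, StarSubalgebra.mem_centralizer_iff]
    constructor
    · intro hz g hg; exact (hz g hg).1
    · intro hz g hg; exact ⟨hz g hg, hz (star g) (star_mem hg)⟩
  have hAS : A ∈ S1 := by
    rw [hm1, hNdef]
    have h1 : aeval A h * A = aeval A (h * X) := by rw [map_mul, aeval_X]
    have h2 : A * aeval A h = aeval A (X * h) := by rw [map_mul, aeval_X]
    rw [h1, h2, mul_comm]
  have hNS : N ∈ S1 := by rw [hm1]
  have h21 : ∀ z ∈ 𝒞, z ∈ S1 := fun z hz => (hm1 z).mpr ((hm2 z).mp hz N hNS)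
  have hcomm : ∀ x ∈ 𝒞, ∀ y ∈ 𝒞, x * y = y * x := fun x hx y hy => (hm2 y).mp hy x (h21 x hx)
  have hNC : N ∈ 𝒞 := (hm2 N).mpr (fun g hg => ((hm1 g).mp hg).symm)
  have hclosed : IsClosed (𝒞 : Set (H →L[ℂ] H)) := by
    have : (𝒞 : Set (H →L[ℂ] H)) = ⋂ g ∈ S1, {z | g * z = z * g} := by
      ext z
      simp only [Set.mem_iInter, Set.mem_setOf_eq]
      exact hm2 z
    rw [this]
    apply isClosed_biInter
    intro g _
    exact isClosed_eq (continuous_const.mul continuous_id) (continuous_id.mul continuous_const)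
  letI : CommCStarAlgebra 𝒞 :=
    { (StarSubalgebra.cstarAlgebra 𝒞 (h_closed := hclosed) : CStarAlgebra 𝒞) with
      mul_comm := fun x y => Subtype.ext (hcomm x.1 x.2 y.1 y.2) }
  obtain ⟨R, hR⟩ := roots_op (B := 𝒞) 𝒞.subtype Subtype.val_injective
    (by
      intro x hx
      refine ⟨⟨x, (hm2 x).mpr ?_⟩, rfl⟩
      intro g hg
      exact (hx g (fun b => (hm2 b.1).mp b.2 g hg)).symm)
    ⟨N, hNC⟩ h hd A (fun b => ((hm2 b.1).mp b.2 A hAS).symm)
  have hlead : h.leadingCoeff ≠ 0 := by
    rw [Polynomial.leadingCoeff_ne_zero]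
    rintro rfl
    simp at hd
  have hprod : ((List.range h.natDegree).map (fun i => A - (R i : H →L[ℂ] H))).prod = 0 := by
    have h1 : h.leadingCoeff • ((List.range h.natDegree).map
        (fun i => A - (R i : H →L[ℂ] H))).prod = 0 := by
      refine hR.symm.trans ?_
      exact sub_self N
    exact (smul_eq_zero.mp h1).resolve_left hlead
  obtain ⟨P, p0, pd, ps, pp, pm, pC, pA, pR⟩ := chain_of_prod A (𝒞 : Set (H →L[ℂ] H)) hcomm
    (fun x hx => star_mem hx) (fun x hx => ((hm2 x).mp hx A hAS).symm) h.natDegree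
    (fun i => (R i : H →L[ℂ] H)) (fun i => (R i).2) hprod
  exact tri_of_chain A (𝒞 : Set (H →L[ℂ] H)) hcomm (fun x hx => star_mem hx) h.natDegree P
    (fun i => (R i : H →L[ℂ] H)) (fun i => (R i).2) p0 pd ps pp pm pC pA pR

end Pool.Agent.H850.TR
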