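import Pool.Agent.H850.TR.Base
set_option autoImplicit false
namespace Pool.Agent.H850.TR

variable {H : Type*} [NormedAddCommGroup H] [InnerProductSpace ℂ H] [CompleteSpace H]

theorem tri_sum_apply (V : Submodule ℂ H) [CompleteSpace V] (x : H →L[ℂ] H) (v : V) :
    cpr V x v = V.orthogonalProjection (x v) := rfl

theorem tri_sum_apply_of (V : Submodule ℂ H) [CompleteSpace V] (x : H →L[ℂ] H)
    (hx : ∀ v ∈ V, x v ∈ V) (v : V) : ((cpr V x v : V) : H) = x v := by
  rw [tri_sum_apply]
  have h := Submodule.orthogonalProjection_mem_subspace_eq_self (⟨x v, hx v v.2⟩ : V)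
  exact congrArg Subtype.val h

theorem tri_sum_mul (V : Submodule ℂ H) [CompleteSpace V] (x y : H →L[ℂ] H)
    (hy : ∀ v ∈ V, y v ∈ V) : cpr V (x * y) = cpr V x * cpr V y := by
  ext v
  show ((V.orthogonalProjection (x (y v)) : V) : H) =
    ((V.orthogonalProjection (x (cpr V y v : V)) : V) : H)
  rw [tri_sum_apply_of V y hy v]

theorem tri_sum_add (V : Submodule ℂ H) [CompleteSpace V] (x y : H →L[ℂ] H) :
    cpr V (x + y) = cpr V x + cpr V y := by
  ext v
  show ((V.orthogonalProjection (x v + y v) : V) : H) =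
    ((V.orthogonalProjection (x v) + V.orthogonalProjection (y v) : V) : H)
  rw [map_add]

theorem tri_sum_alg (V : Submodule ℂ H) [CompleteSpace V] (c : ℂ) :
    cpr V (algebraMap ℂ (H →L[ℂ] H) c) = algebraMap ℂ (V →L[ℂ] V) c := by
  ext v
  have h : ((cpr V (algebraMap ℂ (H →L[ℂ] H) c) v : V) : H) = c • (v : H) := by
    rw [tri_sum_apply_of V _ (fun w hw => ?_) v]
    · simp [Algebra.algebraMap_eq_smul_one]
    · simpa [Algebra.algebraMap_eq_smul_one] using V.smul_mem c hw
  rw [h]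
  simp [Algebra.algebraMap_eq_smul_one]

theorem tri_sum_star (V : Submodule ℂ H) [CompleteSpace V] (x : H →L[ℂ] H) :
    star (cpr V x) = cpr V (star x) := by
  rw [ContinuousLinearMap.star_eq_adjoint, ContinuousLinearMap.star_eq_adjoint]
  unfold cpr
  rw [ContinuousLinearMap.adjoint_comp, ContinuousLinearMap.adjoint_comp,
    Submodule.adjoint_subtypeL, Submodule.adjoint_orthogonalProjection]
  rfl

/-- extension by zero -/
noncomputable def tri_sum_ext (V : Submodule ℂ H) [CompleteSpace V] (d : V →L[ℂ] V) :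
    H →L[ℂ] H := V.subtypeL ∘L d ∘L V.orthogonalProjection

theorem tri_sum_ext_apply (V : Submodule ℂ H) [CompleteSpace V] (d : V →L[ℂ] V) (w : H) :
    tri_sum_ext V d w = (d (V.orthogonalProjection w) : V) := rfl

theorem tri_sum_ext_star (V : Submodule ℂ H) [CompleteSpace V] (d : V →L[ℂ] V) :
    star (tri_sum_ext V d) = tri_sum_ext V (star d) := by
  rw [ContinuousLinearMap.star_eq_adjoint, ContinuousLinearMap.star_eq_adjoint]
  unfold tri_sum_ext
  rw [ContinuousLinearMap.adjoint_comp, ContinuousLinearMap.adjoint_comp,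
    Submodule.adjoint_subtypeL, Submodule.adjoint_orthogonalProjection]
  rfl

theorem tri_sum_ext_cpr (V : Submodule ℂ H) [CompleteSpace V] (d : V →L[ℂ] V) :
    cpr V (tri_sum_ext V d) = d := by
  ext v
  rw [tri_sum_apply, tri_sum_ext_apply,
    Submodule.orthogonalProjection_mem_subspace_eq_self v,
    Submodule.orthogonalProjection_mem_subspace_eq_self (d v)]

theorem tri_sum_ext_zero (V W : Submodule ℂ H) [CompleteSpace V] (h : W ⟂ V)
    (d : V →L[ℂ] V) (w : H) (hw : w ∈ W) : tri_sum_ext V d w = 0 := by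
  rw [tri_sum_ext_apply, Submodule.orthogonalProjection_mem_subspace_orthogonalComplement_eq_zero
    (h hw), map_zero]
  rfl

/-- URGENT (needed by 19:08 UTC). -/
theorem tri_sum {ι : Type*} (A : H →L[ℂ] H) (V : ι → Submodule ℂ H) [∀ i, CompleteSpace (V i)]
    (hV : ∀ i, Reducing A (V i)) (horth : ∀ i j, i ≠ j → V i ⟂ V j)
    (htot : ∀ x : H, (∀ i, x ∈ (V i)ᗮ) → x = 0) (htri : ∀ i, Tri (cpr (V i) A)) : Tri A := by
  classical
  choose T hAT hT using htri
  let 𝒯 : Subalgebra ℂ (H →L[ℂ] H) :=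
    { carrier := {x | ∀ i, (∀ v ∈ V i, x v ∈ V i) ∧ cpr (V i) x ∈ T i}
      mul_mem' := by
        intro x y hx hy i
        refine ⟨fun v hv => (hx i).1 _ ((hy i).1 v hv), ?_⟩
        rw [tri_sum_mul (V i) x y (hy i).1]
        exact (T i).mul_mem (hx i).2 (hy i).2
      add_mem' := by
        intro x y hx hy i
        refine ⟨fun v hv => (V i).add_mem ((hx i).1 v hv) ((hy i).1 v hv), ?_⟩
        rw [tri_sum_add]
        exact (T i).add_mem (hx i).2 (hy i).2
      algebraMap_mem' := by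
        intro c i
        refine ⟨fun v hv => ?_, ?_⟩
        · simpa [Algebra.algebraMap_eq_smul_one] using (V i).smul_mem c hv
        · rw [tri_sum_alg]
          exact (T i).algebraMap_mem c }
  have hmem : ∀ x : H →L[ℂ] H, x ∈ 𝒯 ↔ ∀ i, (∀ v ∈ V i, x v ∈ V i) ∧ cpr (V i) x ∈ T i :=
    fun x => Iff.rfl
  have hD : ∀ x : H →L[ℂ] H, x ∈ 𝒯 → star x ∈ 𝒯 → ∀ i,
      cpr (V i) x ∈ {x : V i →L[ℂ] V i | x ∈ T i ∧ star x ∈ T i} := by
    intro x hx hsx i
    refine ⟨((hmem x).1 hx i).2, ?_⟩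
    rw [tri_sum_star]
    exact ((hmem _).1 hsx i).2
  have hext : ∀ i (d : V i →L[ℂ] V i), d ∈ T i → tri_sum_ext (V i) d ∈ 𝒯 := by
    intro i d hd
    rw [hmem]
    intro j
    by_cases hij : j = i
    · subst hij
      refine ⟨fun v _ => (d ((V j).orthogonalProjection v)).2, ?_⟩
      rw [tri_sum_ext_cpr]
      exact hd
    · have h0 : ∀ v ∈ V j, tri_sum_ext (V i) d v = 0 :=
        fun v hv => tri_sum_ext_zero (V i) (V j) (horth j i hij) d v hv
      refine ⟨fun v hv => by rw [h0 v hv]; exact (V j).zero_mem, ?_⟩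
      have h1 : cpr (V j) (tri_sum_ext (V i) d) = 0 := by
        ext v
        rw [tri_sum_apply, h0 v v.2, map_zero]
        rfl
      rw [h1]
      exact (T j).zero_mem
  have hextD : ∀ i (d : V i →L[ℂ] V i), d ∈ T i → star d ∈ T i →
      tri_sum_ext (V i) d ∈ {x : H →L[ℂ] H | x ∈ 𝒯 ∧ star x ∈ 𝒯} := by
    intro i d hd hsd
    refine ⟨hext i d hd, ?_⟩
    rw [tri_sum_ext_star]
    exact hext i _ hsd
  have hcent : ∀ y : H →L[ℂ] H, (∀ m ∈ {x : H →L[ℂ] H | x ∈ 𝒯 ∧ star x ∈ 𝒯}, m * y = y * m) →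
      y ∈ 𝒯 := by
    intro y hy
    rw [hmem]
    intro i
    have hinv : ∀ v ∈ V i, y v ∈ V i := by
      intro v hv
      have h1 := hy _ (hextD i 1 (T i).one_mem (by
        have e : star (1 : V i →L[ℂ] V i) = 1 :=
          ((ContinuousLinearMap.eq_adjoint_iff (1 : V i →L[ℂ] V i) 1).2 fun x y => rfl).symm
        exact (congrArg (fun z : V i →L[ℂ] V i => z ∈ T i) e).mpr (T i).one_mem))
      have h2 := congrArg (fun z : H →L[ℂ] H => z v) h1
      have h3 : tri_sum_ext (V i) 1 (y v) = y (tri_sum_ext (V i) 1 v) := h2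
      have h4 : tri_sum_ext (V i) 1 v = v := by
        rw [tri_sum_ext_apply]
        have h := Submodule.orthogonalProjection_mem_subspace_eq_self (⟨v, hv⟩ : V i)
        exact congrArg Subtype.val h
      rw [h4] at h3
      rw [← h3]
      exact ((1 : V i →L[ℂ] V i) ((V i).orthogonalProjection (y v))).2
    refine ⟨hinv, ?_⟩
    have h1 : cpr (V i) y ∈ Set.centralizer {x : V i →L[ℂ] V i | x ∈ T i ∧ star x ∈ T i} := by
      rw [Set.mem_centralizer_iff]
      rintro d ⟨hd, hsd⟩
      have h2 := hy _ (hextD i d hd hsd)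
      have h3 : cpr (V i) (tri_sum_ext (V i) d * y) = cpr (V i) (y * tri_sum_ext (V i) d) := by
        rw [h2]
      rw [tri_sum_mul _ _ _ hinv, tri_sum_mul _ _ _
        (fun v _ => (d ((V i).orthogonalProjection v)).2), tri_sum_ext_cpr] at h3
      exact h3
    rw [← hT i] at h1
    exact h1.1
  refine ⟨𝒯, (hmem A).2 fun i => ⟨(hV i).2.1, hAT i⟩, ?_⟩
  apply Set.Subset.antisymm
  · rintro y ⟨hy, hsy⟩
    rw [Set.mem_centralizer_iff]
    rintro x ⟨hx, hsx⟩
    have hvan : ∀ i, ∀ v ∈ V i, (x * y - y * x) v = 0 := by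
      intro i v hv
      have h1 := hD x hx hsx i
      have h2 := hD y hy hsy i
      rw [hT i, Set.mem_centralizer_iff] at h2
      have h3 := h2 _ h1
      have h4 := congrArg (fun z : V i →L[ℂ] V i => ((z ⟨v, hv⟩ : V i) : H)) h3
      have h5 : ((cpr (V i) x (cpr (V i) y ⟨v, hv⟩) : V i) : H) =
        ((cpr (V i) y (cpr (V i) x ⟨v, hv⟩) : V i) : H) := h4
      rw [tri_sum_apply_of _ _ ((hmem x).1 hx i).1, tri_sum_apply_of _ _ ((hmem y).1 hy i).1,
        tri_sum_apply_of _ _ ((hmem y).1 hy i).1, tri_sum_apply_of _ _ ((hmem x).1 hx i).1] at h5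
      show x (y v) - y (x v) = 0
      rw [sub_eq_zero]
      exact h5
    have hz : star (x * y - y * x) = 0 := by
      ext w
      apply htot
      intro i
      rw [Submodule.mem_orthogonal]
      intro v hv
      rw [ContinuousLinearMap.star_eq_adjoint, ContinuousLinearMap.adjoint_inner_right,
        hvan i v hv, inner_zero_left]
    rw [star_eq_zero, sub_eq_zero] at hz
    exact hz
  · intro y hy
    rw [Set.mem_centralizer_iff] at hy
    refine ⟨hcent y hy, hcent (star y) ?_⟩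
    rintro m ⟨hm, hsm⟩
    have h1 := hy (star m) ⟨hsm, by rw [star_star]; exact hm⟩
    have h2 := congrArg star h1
    rw [star_mul, star_mul, star_star] at h2
    exact h2.symm

end Pool.Agent.H850.TR
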