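import Pool.Agent.H850.TR.Base
set_option autoImplicit false
namespace Pool.Agent.H850.TR

variable {H : Type*} [NormedAddCommGroup H] [InnerProductSpace ℂ H] [CompleteSpace H]

theorem cpr_coe {V : Submodule ℂ H} [CompleteSpace V] {A : H →L[ℂ] H} (v : V)
    (h : A v ∈ V) : ((cpr V A v : V) : H) = A v := by
  have : cpr V A v = V.orthogonalProjection (A v) := rfl
  rw [this]
  have h2 := Submodule.orthogonalProjection_mem_subspace_eq_self (K := V) (⟨A v, h⟩ : V)
  have h3 : V.orthogonalProjection (A v) = (⟨A v, h⟩ : V) := h2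
  rw [h3]

theorem star_cpr_coe {V : Submodule ℂ H} [CompleteSpace V] {A : H →L[ℂ] H} (v : V)
    (h : ∀ v ∈ V, A v ∈ V) (hs : star A v ∈ V) :
    ((star (cpr V A) v : V) : H) = star A v := by
  have key : (star (cpr V A) v : V) = (⟨star A v, hs⟩ : V) := by
    apply ext_inner_right ℂ
    intro u
    rw [ContinuousLinearMap.star_eq_adjoint, ContinuousLinearMap.adjoint_inner_left]
    rw [Submodule.coe_inner, Submodule.coe_inner, cpr_coe u (h u u.2)]
    show _ = inner ℂ (star A (v : H)) (u : H)
    rw [ContinuousLinearMap.star_eq_adjoint, ContinuousLinearMap.adjoint_inner_left]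
  rw [key]

theorem exists_decomp (A : H →L[ℂ] H) :
    ∃ (S : Set (Submodule ℂ H)) (Vc : Submodule ℂ H), (∀ V ∈ S, MinRed A V) ∧
      (∀ V ∈ S, ∀ W ∈ S, V ≠ W → V ⟂ W) ∧ Reducing A Vc ∧ (∀ W ∈ S, W ⟂ Vc) ∧
      (∀ x : H, (∀ W ∈ S, x ∈ Wᗮ) → x ∈ Vcᗮ → x = 0) ∧
      ∀ (_ : CompleteSpace Vc) (U : Submodule ℂ Vc), ¬ MinRed (cpr Vc A) U := by
  let F : Set (Set (Submodule ℂ H)) :=
    {S | (∀ V ∈ S, MinRed A V) ∧ (∀ V ∈ S, ∀ W ∈ S, V ≠ W → V ⟂ W)}
  obtain ⟨S, hS⟩ : ∃ m, Maximal (· ∈ F) m := by
    apply zorn_subset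
    intro c hc hchain
    refine ⟨⋃₀ c, ⟨?_, ?_⟩, fun s hs => Set.subset_sUnion_of_mem hs⟩
    · rintro V ⟨s, hs, hV⟩
      exact (hc hs).1 V hV
    · rintro V ⟨s, hs, hV⟩ W ⟨t, ht, hW⟩ hne
      rcases hchain.total hs ht with hst | hst
      · exact (hc ht).2 V (hst hV) W hW hne
      · exact (hc hs).2 V hV W (hst hW) hne
  have hSF : S ∈ F := hS.prop
  obtain ⟨hS1, hS2⟩ := hSF
  let Vc : Submodule ℂ H := ⨅ W ∈ S, Wᗮ
  have memVc : ∀ v : H, v ∈ Vc ↔ ∀ W ∈ S, v ∈ Wᗮ := by
    intro v
    simp only [Vc, Submodule.mem_iInf]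
  have hVcle : ∀ W ∈ S, Vc ≤ Wᗮ := fun W hW v hv => (memVc v).1 hv W hW
  have hVcred : Reducing A Vc := by
    refine ⟨?_, ?_, ?_⟩
    · have : (Vc : Set H) = ⋂ W ∈ S, ((Wᗮ : Submodule ℂ H) : Set H) := by
        ext v
        simp only [SetLike.mem_coe, memVc, Set.mem_iInter]
      rw [this]
      exact isClosed_biInter fun W _ => Submodule.isClosed_orthogonal W
    · intro v hv
      rw [memVc] at hv ⊢
      intro W hW
      rw [Submodule.mem_orthogonal]
      intro w hw
      rw [← ContinuousLinearMap.adjoint_inner_left, ← ContinuousLinearMap.star_eq_adjoint]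
      exact (Submodule.mem_orthogonal W v).1 (hv W hW) _ ((hS1 W hW).1.2.2 w hw)
    · intro v hv
      rw [memVc] at hv ⊢
      intro W hW
      rw [Submodule.mem_orthogonal]
      intro w hw
      rw [ContinuousLinearMap.star_eq_adjoint, ContinuousLinearMap.adjoint_inner_right]
      exact (Submodule.mem_orthogonal W v).1 (hv W hW) _ ((hS1 W hW).1.2.1 w hw)
  refine ⟨S, Vc, hS1, hS2, hVcred, ?_, ?_, ?_⟩
  · intro W hW
    exact (Submodule.isOrtho_iff_le.2 (hVcle W hW)).symm
  · intro x hx hxc
    have hxV : x ∈ Vc := (memVc x).2 hx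
    have := (Submodule.mem_orthogonal Vc x).1 hxc x hxV
    exact inner_self_eq_zero.1 this
  · intro inst U hU
    obtain ⟨⟨hUc, hU1, hU2⟩, hU0, hUmin⟩ := hU
    let U' : Submodule ℂ H := U.map Vc.subtype
    have hinj : Function.Injective (Vc.subtype) := Submodule.injective_subtype Vc
    have memU' : ∀ v : Vc, (v : H) ∈ U' ↔ v ∈ U := by
      intro v
      constructor
      · rintro ⟨u, hu, huv⟩
        have : u = v := Subtype.ext huv
        rw [← this]; exact hu
      · intro hv
        exact ⟨v, hv, rfl⟩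
    have hU'le : U' ≤ Vc := by
      rintro v ⟨u, _, rfl⟩
      exact u.2
    have hemb : Topology.IsClosedEmbedding (Subtype.val : Vc → H) :=
      hVcred.1.isClosedEmbedding_subtypeVal
    have hU'red : Reducing A U' := by
      refine ⟨?_, ?_, ?_⟩
      · have : (U' : Set H) = (Subtype.val : Vc → H) '' (U : Set Vc) := by
          simp only [U', Submodule.map_coe]
          rfl
        rw [this]
        exact hemb.isClosedMap _ hUc
      · rintro v ⟨u, hu, rfl⟩
        have h1 := hU1 u hu
        have h2 := (memU' _).2 h1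
        rw [cpr_coe u (hVcred.2.1 u u.2)] at h2
        exact h2
      · rintro v ⟨u, hu, rfl⟩
        have h1 := hU2 u hu
        have h2 := (memU' _).2 h1
        rw [star_cpr_coe u hVcred.2.1 (hVcred.2.2 u u.2)] at h2
        exact h2
    have hU'0 : U' ≠ ⊥ := by
      intro h
      apply hU0
      rw [eq_bot_iff]
      intro u hu
      have : (u : H) ∈ U' := (memU' u).2 hu
      rw [h, Submodule.mem_bot] at this
      rw [Submodule.mem_bot]
      exact Subtype.ext this
    have hU'min : MinRed A U' := by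
      refine ⟨hU'red, hU'0, ?_⟩
      intro W hW hWU
      have hWred : Reducing (cpr Vc A) (W.comap Vc.subtype) := by
        refine ⟨?_, ?_, ?_⟩
        · have : ((W.comap Vc.subtype : Submodule ℂ Vc) : Set Vc) =
            (Subtype.val : Vc → H) ⁻¹' (W : Set H) := rfl
          rw [this]
          exact hW.1.preimage continuous_subtype_val
        · intro v hv
          show ((cpr Vc A v : Vc) : H) ∈ W
          rw [cpr_coe v (hVcred.2.1 v v.2)]
          exact hW.2.1 _ hv
        · intro v hv
          show ((star (cpr Vc A) v : Vc) : H) ∈ W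
          rw [star_cpr_coe v hVcred.2.1 (hVcred.2.2 v v.2)]
          exact hW.2.2 _ hv
      have hWU0 : W.comap Vc.subtype ≤ U := by
        intro v hv
        exact (memU' v).1 (hWU hv)
      rcases hUmin _ hWred hWU0 with h | h
      · left
        rw [eq_bot_iff]
        intro w hw
        have hwV : w ∈ Vc := hU'le (hWU hw)
        have : (⟨w, hwV⟩ : Vc) ∈ W.comap Vc.subtype := hw
        rw [h, Submodule.mem_bot] at this
        rw [Submodule.mem_bot]
        exact congrArg Subtype.val this
      · right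
        apply le_antisymm hWU
        rintro v ⟨u, hu, rfl⟩
        have : u ∈ W.comap Vc.subtype := by rw [h]; exact hu
        exact this
    have hU'ortho : ∀ W ∈ S, U' ⟂ W := fun W hW =>
      Submodule.isOrtho_iff_le.2 (hU'le.trans (hVcle W hW))
    have hins : insert U' S ∈ F := by
      refine ⟨?_, ?_⟩
      · intro V hV
        rcases Set.mem_insert_iff.1 hV with rfl | hV
        · exact hU'min
        · exact hS1 V hV
      · intro V hV W hW hne
        rcases Set.mem_insert_iff.1 hV with hV | hV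
        · rcases Set.mem_insert_iff.1 hW with hW | hW
          · exact absurd (hV.trans hW.symm) hne
          · rw [hV]; exact hU'ortho W hW
        · rcases Set.mem_insert_iff.1 hW with hW | hW
          · rw [hW]; exact (hU'ortho V hV).symm
          · exact hS2 V hV W hW hne
    have hmemS : U' ∈ S := hS.le_of_ge hins (Set.subset_insert U' S) (Set.mem_insert U' S)
    exact hU'0 (Submodule.isOrtho_self.1 (hU'ortho U' hmemS))

end Pool.Agent.H850.TR
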