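import Pool.Agent.H850.TR.J4
import Pool.Agent.H850.TR.J5
import Pool.Agent.H850.TR.J6
import Pool.Agent.H850.TR.J7
import Pool.Agent.H905R2.Tri7

/-!
# Operators without exceptional irreducible summands lie in triangular algebras
-/

set_option autoImplicit false
open Polynomial
namespace Pool.Agent.H850.TR

variable {H : Type*} [NormedAddCommGroup H] [InnerProductSpace ℂ H] [CompleteSpace H]

/-- for no non-constant polynomial `h` the operator `h(A) - h(A)*` is compact and non-zero -/
def NonExc (A : H →L[ℂ] H) : Prop :=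
  ∀ h : ℂ[X], 0 < h.natDegree → IsCompactOperator (aeval A h - star (aeval A h)) →
    aeval A h = star (aeval A h)

/-- `h(A) - h(A)*` is non-compact for all non-constant `h`, or it is `0` for some non-constant `h` -/
def Good (A : H →L[ℂ] H) : Prop :=
  (∀ h : ℂ[X], 0 < h.natDegree → ¬ IsCompactOperator (aeval A h - star (aeval A h))) ∨
    ∃ h : ℂ[X], 0 < h.natDegree ∧ aeval A h = star (aeval A h)

theorem tri_of_good [TopologicalSpace.SeparableSpace H] {A : H →L[ℂ] H} (hA : Good A) :
    Tri A := by
  rcases hA with hc | ⟨h, hd, hk⟩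
  · exact H905Tri.triangular_of_essential hc
  · exact tri_of_polySelfAdjoint A h hd hk.symm

theorem good_of_nonExc {A : H →L[ℂ] H} (hA : NonExc A) : Good A := by
  by_cases hc : ∀ h : ℂ[X], 0 < h.natDegree → ¬ IsCompactOperator (aeval A h - star (aeval A h))
  · exact Or.inl hc
  · push Not at hc
    obtain ⟨h, hd, hk⟩ := hc
    exact Or.inr ⟨h, hd, hA h hd hk⟩

lemma aeval_mem {A : H →L[ℂ] H} {V : Submodule ℂ H} (hV : ∀ v ∈ V, A v ∈ V) (h : ℂ[X]) :
    ∀ v ∈ V, (aeval A h) v ∈ V := by
  induction h using Polynomial.induction_on' with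
  | add p q hp hq =>
    intro v hv
    rw [map_add]
    exact V.add_mem (hp v hv) (hq v hv)
  | monomial n a =>
    intro v hv
    rw [aeval_monomial, Algebra.algebraMap_eq_smul_one, smul_mul_assoc, one_mul]
    have h1 : ∀ n : ℕ, (A ^ n) v ∈ V := by
      intro n
      induction n with
      | zero => simpa using hv
      | succ n ih =>
        rw [pow_succ']
        exact hV _ ih
    exact V.smul_mem a (h1 n)

lemma star_aeval_mem {A : H →L[ℂ] H} {V : Submodule ℂ H} (hV : Reducing A V) (h : ℂ[X]) :
    ∀ v ∈ V, (star (aeval A h)) v ∈ V := by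
  intro v hv
  have : CompleteSpace V := hV.1.completeSpace_coe
  have h1 : (star (aeval A h)) v ∈ Vᗮᗮ := by
    rw [Submodule.mem_orthogonal]
    intro w hw
    rw [ContinuousLinearMap.star_eq_adjoint, ContinuousLinearMap.adjoint_inner_right]
    have h2 : (aeval A h) w ∈ Vᗮ := aeval_mem (reducing_orthogonal hV).2.1 h w hw
    exact Submodule.inner_left_of_mem_orthogonal hv h2
  rwa [Submodule.orthogonal_orthogonal] at h1

/-- an operator without minimal reducing subspaces is not exceptional -/
theorem nonExc_of_no_minRed {A : H →L[ℂ] H} (hA : ∀ V, ¬ MinRed A V) : NonExc A := by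
  intro h hd hk
  by_contra hne
  set κ : H →L[ℂ] H := Complex.I • (aeval A h - star (aeval A h)) with hκ
  have h1 : IsCompactOperator κ := by
    rw [hκ]
    exact hk.smul Complex.I
  have h2 : star κ = κ := by
    rw [hκ, star_smul, star_sub, star_star]
    have : star Complex.I = -Complex.I := Complex.conj_I
    rw [this, neg_smul, ← smul_neg, neg_sub]
  have h3 : κ ≠ 0 := by
    rw [hκ]
    intro h0
    rcases smul_eq_zero.mp h0 with h4 | h4
    · exact Complex.I_ne_zero h4
    · exact hne (sub_eq_zero.mp h4)
  obtain ⟨V, hV, hV0, hVm⟩ := exists_minimal A κ h1 h2 h3 (by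
    intro V hV v hv
    show Complex.I • ((aeval A h) v - (star (aeval A h)) v) ∈ V
    exact V.smul_mem _ (V.sub_mem (aeval_mem hV.2.1 h v hv) (star_aeval_mem hV h v hv)))
  exact hA V ⟨hV, hV0, hVm⟩

/-- the general theorem -/
theorem tri_of_minRed [TopologicalSpace.SeparableSpace H] (A : H →L[ℂ] H)
    (hA : ∀ (V : Submodule ℂ H) (_ : CompleteSpace V), MinRed A V →
      Good (cpr V A) ∨ Tri (cpr V A)) : Tri A := by
  classical
  obtain ⟨S, Vc, hS, hSo, hVc, hSc, htot, hno⟩ := exists_decomp A
  have : SecondCountableTopology H := UniformSpace.secondCountable_of_separable H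
  have hsep : ∀ V : Submodule ℂ H, TopologicalSpace.SeparableSpace V := fun V => inferInstance
  -- the family indexed by `Option S`
  let V : Option S → Submodule ℂ H := fun o => o.elim Vc (fun s => s.1)
  have hred : ∀ o, Reducing A (V o) := by
    rintro (_ | s)
    · exact hVc
    · exact (hS s.1 s.2).1
  have hcomp : ∀ o, CompleteSpace (V o) := fun o => (hred o).1.completeSpace_coe
  apply tri_sum A V hred
  · rintro (_ | s) (_ | t) hst
    · exact absurd rfl hst
    · exact (hSc t.1 t.2).symm
    · exact hSc s.1 s.2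
    · apply hSo s.1 s.2 t.1 t.2
      intro h
      apply hst
      rw [Subtype.ext h]
  · intro x hx
    apply htot x
    · intro W hW
      exact hx (some ⟨W, hW⟩)
    · exact hx none
  · rintro (_ | s)
    · have : TopologicalSpace.SeparableSpace (V none) := hsep _
      exact tri_of_good (good_of_nonExc (nonExc_of_no_minRed (hno (hcomp none))))
    · have : TopologicalSpace.SeparableSpace (V (some s)) := hsep _
      rcases hA s.1 (hcomp (some s)) (hS s.1 s.2) with h | h
      · exact tri_of_good h
      · exact h

end Pool.Agent.H850.TR
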